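import Pool.Agent.TH85.PD.AJ

/-!
# Injectivity of Abel-Jacobi maps and powers of divisor classes

`𝒱` is a class of smooth projective geometrically irreducible varieties over the field `k` closed
under products (for the problem: all of them, over a number field `k = K`), `C` the Chow groups with
rational coefficients (in the form of their formal properties, `IsChowProj`) and `H` a Weil
cohomology theory (`IsWeilProj`), for the problem `p`-adic etale cohomology. `T` is a family of
functorial Abel-Jacobi maps (`AbelJacobi`, `IsFunctorial`), for the problem the `p`-adic etale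
Abel-Jacobi maps `CH^i(X)_hom → H^1(K, H^(2i-1)(X ⊗ \bar K, ℚ_p(i)))`.

`S` is a class of varieties with the formal properties `IsRich`: in the intended use `S` consists
of all rational varieties, or of all varieties. (Each `X` is a twisted direct summand of the blow-up
of a projective space along `X`; the Chern character is an isomorphism from `K_0 ⊗ ℚ` to the Chow
ring, so that multiples of any class `z ∈ CH^r(Y)`, `r > 0`, are up to the rank Chern characters of
vector bundles; projective bundles over rational varieties are rational.)

Theorem. The Abel-Jacobi maps of all varieties in all codimensions are injective if and only if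
`ξ^n = 0` for all divisor classes `ξ` on varieties `X` in `S` of dimension `2 n` such that
`cl(ξ)^n = 0` in cohomology and the Abel-Jacobi invariant of `ξ^n` is zero.

Proof. Let `z ∈ CH^r(Y)`, `Y ∈ S`, `r > 0`, be in the kernel of the Abel-Jacobi map. Choose a vector
bundle `V` on `Y` of large rank `n` with Chern character `n + q z`, `q ≠ 0`. Its Chern classes are the
terms of `exp (γ z)`, `γ ≠ 0`. On `f : P = P(V) ⟶ Y`, with `ξ = c_1(O(1))`, the relation of
Grothendieck shows that `ξ^n` is a multiple of `f^* z`, so it is in the kernel of the Abel-Jacobi
map; and `f_* (ξ^(n+r-1)) = - γ z`. Let `Q` have dimension `n + 1 - dim Y`. Then `P × Q` has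
dimension `2 n`, so the condition gives `ξ^n = 0`, and `z = 0`.
-/

open CategoryTheory AlgebraicGeometry

set_option autoImplicit false

universe u v w

namespace Pool.Agent.Results.MP_386e47_ag.DivisorPowers

open Pool.Agent.H914 Pool.Agent.W492.BB Pool.Agent.TH133 Pool.Agent.TH127.PD Pool.Agent.TH85.PD

/-- Let `S` be a class of varieties with the formal properties `IsRich` of the class of all rational
varieties, and `T` a functorial family of Abel-Jacobi maps. They are all injective if and only if
`ξ^n = 0` for all divisor classes `ξ` on members of `S` of dimension `2 n` such that `cl(ξ)^n = 0`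
and the Abel-Jacobi map vanishes on `ξ^n`. -/
theorem result {k : Type u} [Field k] {𝒱 : VarClass k} (C : TheoryData.{u, v, 0} 𝒱 ℚ)
    [IsChowProj C] {K : Type w} [Field K] (H : WeilTheoryData.{u, v, w} C K) [IsWeilProj H]
    (T : AbelJacobi H) (hT : T.IsFunctorial) (S : Set 𝒱.Obj) (hS : IsRich C S) :
    AJInjective T ↔ ∀ X ∈ S, ∀ (n : ℕ) (ξ : C.A X), X.dim = 2 * n → C.Deg 1 ξ →
      H.cl ξ ^ n = 0 → T.aj X n (ξ ^ n) = 0 → ξ ^ n = 0 :=
  aj_iff hT hS

end Pool.Agent.Results.MP_386e47_ag.DivisorPowers
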